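import Pool.Agent.L7h34.PG.Stm

/-!
# Project PG, part EXI: every formula has an interpretation

An adaptation of the last third of `Pool/Agent/L7h34/HS/Exi.lean` (helper34): the object of the
homotopies between two maps `f g : B ⟶ X`.
-/

set_option autoImplicit false

namespace Pool.Agent.L7h15.PG

open CategoryTheory Opposite Limits MonoidalCategory
open Pool.Agent.L7h74.HS (pw pr prn cns)
open Pool.Agent.L7h34.PG
open Pool.Agent.L7h34.HS (nat_el map_id_el map_comp_el hom_el cst mkH pi_univ exp_univ PiO evP)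

section Path

open SSet

variable {X B : SSet.{0}} (f g : B ⟶ X)

/-- a simplex of the object of the homotopies from `f` to `g` -/
structure HoEl (m : SimplexCategoryᵒᵖ) : Type where
  /-- the base point -/
  x : B.obj m
  /-- the homotopy -/
  H : ∀ (k : SimplexCategoryᵒᵖ) (_ : m ⟶ k)
    (_ : (SSet.stdSimplex.obj (SimplexCategory.mk 1) : SSet.{0}).obj k), X.obj k
  nat : ∀ k t e k' (r : k ⟶ k'), X.map r (H k t e) =
    H k' (t ≫ r) ((SSet.stdSimplex.obj (SimplexCategory.mk 1) : SSet.{0}).map r e)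
  h0 : ∀ k t, H k t (cst 0 k) = X.map t (f.app m x)
  h1 : ∀ k t, H k t (cst 1 k) = X.map t (g.app m x)

variable {f g}

theorem HoEl.ext' {m : SimplexCategoryᵒᵖ} {x y : HoEl f g m} (hb : x.x = y.x)
    (hs : ∀ k t e, x.H k t e = y.H k t e) : x = y := by
  obtain ⟨b, s, o, n, r⟩ := x
  obtain ⟨b', s', o', n', r'⟩ := y
  have e2 : s = s' := by
    funext k t a
    exact hs k t a
  change b = b' at hb
  subst hb e2
  rfl

/-- restriction -/
noncomputable def HoEl.res {m m' : SimplexCategoryᵒᵖ} (u : m ⟶ m') (z : HoEl f g m) :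
    HoEl f g m' where
  x := B.map u z.x
  H k t e := z.H k (u ≫ t) e
  nat k t e k' r := by
    rw [z.nat, Category.assoc]
  h0 k t := by rw [z.h0, map_comp_el, nat_el]
  h1 k t := by rw [z.h1, map_comp_el, nat_el]

variable (f g)

/-- the object of the homotopies -/
noncomputable def HoS : SSet.{0} where
  obj m := HoEl f g m
  map u := ↾ fun z => z.res u
  map_id m := by
    ext z
    refine HoEl.ext' (map_id_el B _) fun k t e => ?_
    change z.H k (𝟙 m ≫ t) e = z.H k t e
    rw [Category.id_comp]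
  map_comp u v := by
    ext z
    refine HoEl.ext' (map_comp_el B _ _ _) fun k t e => ?_
    change z.H k ((u ≫ v) ≫ t) e = z.H k (u ≫ v ≫ t) e
    rw [Category.assoc]

/-- the object of the homotopies over `B` -/
noncomputable def HoO : Over B := Over.mk (Y := HoS f g)
  { app := fun m => ↾ fun z => z.x
    naturality := fun m m' u => by
      ext z
      rfl }

/-- the universal homotopy as a map -/
noncomputable def evO :
    (HoO f g).left ⊗ (SSet.stdSimplex.obj (SimplexCategory.mk 1) : SSet.{0}) ⟶ X where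
  app m := ↾ fun z => HoEl.H z.1 m (𝟙 m) z.2
  naturality m m' u := by
    ext z
    change HoEl.H (HoEl.res u z.1) m' (𝟙 m')
      ((SSet.stdSimplex.obj (SimplexCategory.mk 1) : SSet.{0}).map u z.2) =
        X.map u (HoEl.H z.1 m (𝟙 m) z.2)
    refine Eq.trans ?_ (HoEl.nat z.1 m (𝟙 m) z.2 m' u).symm
    change HoEl.H z.1 m' (u ≫ 𝟙 m') _ = _
    rw [Category.comp_id, Category.id_comp]

/-- the universal homotopy -/
noncomputable def HHO : SSet.Homotopy ((HoO f g).hom ≫ f) ((HoO f g).hom ≫ g) :=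
  mkH (evO f g)
    (by
      ext m z
      exact (HoEl.h0 z m (𝟙 m)).trans (map_id_el X _))
    (by
      ext m z
      exact (HoEl.h1 z m (𝟙 m)).trans (map_id_el X _))

/-- the transposed map -/
noncomputable def trE (T : Over B) (G : SSet.Homotopy (T.hom ≫ f) (T.hom ≫ g))
    (m : SimplexCategoryᵒᵖ) (τ : T.left.obj m) : HoEl f g m where
  x := T.hom.app m τ
  H k t e := G.h.app k (T.left.map t τ, e)
  nat k t e k' r := by
    have h1 := nat_el G.h r (T.left.map t τ, e)
    rw [map_comp_el T.left]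
    exact h1.symm
  h0 k t := by
    have h1 := ConcreteCategory.congr_hom (congr_app G.h₀ k) (T.left.map t τ)
    have h2 := nat_el (T.hom ≫ f) t τ
    exact h1.trans h2
  h1 k t := by
    have h1 := ConcreteCategory.congr_hom (congr_app G.h₁ k) (T.left.map t τ)
    have h2 := nat_el (T.hom ≫ g) t τ
    exact h1.trans h2

/-- the transposed map -/
noncomputable def trEO (T : Over B) (G : SSet.Homotopy (T.hom ≫ f) (T.hom ≫ g)) :
    T ⟶ HoO f g :=
  Over.homMk
    { app := fun m => ↾ fun τ => trE f g T G m τ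
      naturality := fun m m' u => by
        ext τ
        change trE f g T G m' (T.left.map u τ) = (trE f g T G m τ).res u
        refine HoEl.ext' ?_ fun k t e => ?_
        · exact nat_el T.hom u τ
        · change G.h.app k (T.left.map t (T.left.map u τ), e) =
            G.h.app k (T.left.map (u ≫ t) τ, e)
          rw [map_comp_el] }
    (by
      ext m τ
      rfl)

theorem ho_univ (T : Over B) (G : SSet.Homotopy (T.hom ≫ f) (T.hom ≫ g)) :
    ∃! h : T ⟶ HoO f g, (h.left ▷ (SSet.stdSimplex.obj (SimplexCategory.mk 1) : SSet.{0})) ≫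
      (HHO f g).h = G.h := by
  refine ⟨trEO f g T G, ?_, ?_⟩
  · ext m ⟨τ, e⟩
    change G.h.app m (T.left.map (𝟙 m) τ, e) = G.h.app m (τ, e)
    rw [map_id_el]
  · intro h hh
    ext m τ
    refine HoEl.ext' ?_ fun k t e => ?_
    · exact hom_el h τ
    · change _ = G.h.app k (T.left.map t τ, e)
      rw [← hh]
      have h1 : h.left.app k (T.left.map t τ) = HoEl.res t (h.left.app m τ) :=
        nat_el h.left t τ
      change _ = HoEl.H (h.left.app k (T.left.map t τ)) k (𝟙 k) e
      rw [h1]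
      change _ = HoEl.H (h.left.app m τ) k (t ≫ 𝟙 k) e
      rw [Category.comp_id]
      rfl

end Path

/-! ### The theorem -/

theorem s_EXI : S_EXI := by
  intro X μ n φ
  induction φ with
  | top => exact ⟨Over.mk (𝟙 _), ⟨Over.mkIdTerminal⟩⟩
  | bot => exact ⟨⊥_ _, ⟨initialIsInitial⟩⟩
  | eq s t => exact ⟨HoO (tm μ s) (tm μ t), HHO (tm μ s) (tm μ t), ho_univ (tm μ s) (tm μ t)⟩
  | and φ ψ h1 h2 =>
    obtain ⟨A, hA⟩ := h1
    obtain ⟨B, hB⟩ := h2
    exact ⟨A ⨯ B, A, B, hA, hB, prod.fst, prod.snd, ⟨prodIsProd A B⟩⟩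
  | or φ ψ h1 h2 =>
    obtain ⟨A, hA⟩ := h1
    obtain ⟨B, hB⟩ := h2
    exact ⟨A ⨿ B, A, B, hA, hB, coprod.inl, coprod.inr, ⟨coprodIsCoprod A B⟩⟩
  | imp φ ψ h1 h2 =>
    obtain ⟨A, hA⟩ := h1
    obtain ⟨B, hB⟩ := h2
    obtain ⟨E, ev, hE⟩ := exp_univ A B
    exact ⟨E, A, B, hA, hB, ev, hE⟩
  | all φ h1 =>
    obtain ⟨A, hA⟩ := h1
    exact ⟨PiO (prn X _) A, A, hA, evP (prn X _) A, pi_univ (prn X _) A⟩
  | ex φ h1 =>
    obtain ⟨A, hA⟩ := h1
    exact ⟨_, A, hA, ⟨Iso.refl _⟩⟩

end Pool.Agent.L7h15.PG
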