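import Pool.Agent.L7h34.PG.Stm

/-!
# Project PG, part KAN: `XX S` is a Kan complex
-/

set_option autoImplicit false

namespace Pool.Agent.L7h15.PG

open CategoryTheory Opposite Limits MonoidalCategory SSet
open Pool.Agent.L7h34.PG

/-- two faces of a simplex have a common face -/
theorem common {n : ℕ} (j k : Fin (n + 3)) (hjk : j < k) (a a' : Fin (n + 2))
    (h : j.succAbove a = k.succAbove a') :
    ∃ b : Fin (n + 1), (k.pred (Fin.ne_zero_of_lt hjk)).succAbove b = a ∧
      (j.castPred (Fin.ne_last_of_lt hjk)).succAbove b = a' := by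
  obtain ⟨j, rfl⟩ := j.eq_castSucc_of_ne_last (Fin.ne_last_of_lt hjk)
  obtain ⟨k, rfl⟩ := k.eq_succ_of_ne_zero (Fin.ne_zero_of_lt hjk)
  rw [Fin.pred_succ, Fin.castPred_castSucc]
  have hjk' : j ≤ k := by
    rw [Fin.lt_def, Fin.val_castSucc, Fin.val_succ] at hjk
    rw [Fin.le_def]
    omega
  have ha : a ≠ k := by
    rintro rfl
    rw [Fin.succAbove_of_le_castSucc _ _ (Fin.castSucc_le_castSucc_iff.2 hjk')] at h
    exact Fin.succAbove_ne _ a' h.symm
  obtain ⟨b, hb⟩ := Fin.exists_succAbove_eq ha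
  refine ⟨b, hb, ?_⟩
  apply Fin.succAbove_right_injective (p := k.succ)
  rw [← h, ← hb]
  rw [Fin.le_def] at hjk'
  clear h ha hb hjk
  ext
  simp only [Fin.succAbove, Fin.lt_def]
  split_ifs <;> simp only [Fin.val_castSucc, Fin.val_succ] at * <;> omega

/-- the filler of a compatible family of simplices of the classifying space, by values -/
theorem fill {n : ℕ} (i : Fin (n + 3)) (c : ∀ j : Fin (n + 3), j ≠ i → Fin (n + 2) → Fin (n + 2) → G)
    (hc : ∀ j hj a b d, c j hj a b * c j hj b d = c j hj a d)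
    (h : ∀ (j k : Fin (n + 3)) (hj : j ≠ i) (hk : k ≠ i) (hjk : j < k) (a b : Fin (n + 1)),
      c j hj ((k.pred (Fin.ne_zero_of_lt hjk)).succAbove a)
          ((k.pred (Fin.ne_zero_of_lt hjk)).succAbove b) =
        c k hk ((j.castPred (Fin.ne_last_of_lt hjk)).succAbove a)
          ((j.castPred (Fin.ne_last_of_lt hjk)).succAbove b)) :
    ∃ g : Fin (n + 3) → G, ∀ j hj a b,
      (g (j.succAbove a))⁻¹ * g (j.succAbove b) = c j hj a b := by
  have key : ∀ j k hj hk a b a' b', j.succAbove a = k.succAbove a' →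
      j.succAbove b = k.succAbove b' → c j hj a b = c k hk a' b' := by
    intro j k hj hk a b a' b' h1 h2
    rcases lt_trichotomy j k with hjk | rfl | hjk
    · obtain ⟨x, rfl, rfl⟩ := common j k hjk a a' h1
      obtain ⟨y, rfl, rfl⟩ := common j k hjk b b' h2
      exact h j k hj hk hjk x y
    · rw [Fin.succAbove_right_injective h1, Fin.succAbove_right_injective h2]
    · obtain ⟨x, rfl, rfl⟩ := common k j hjk a' a h1.symm
      obtain ⟨y, rfl, rfl⟩ := common k j hjk b' b h2.symm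
      exact (h k j hk hj hjk x y).symm
  have ex : ∀ v : Fin (n + 3), ∃ g : G, ∀ j hj a b, j.succAbove a = i → j.succAbove b = v →
      c j hj a b = g := by
    intro v
    obtain ⟨j, hj, hjv⟩ : ∃ j : Fin (n + 3), j ≠ i ∧ j ≠ v := by
      have h3 : ({i, v} : Finset (Fin (n + 3))).card < (Finset.univ : Finset (Fin (n + 3))).card := by
        rw [Finset.card_univ, Fintype.card_fin]
        have := Finset.card_le_two (a := i) (b := v)
        omega
      obtain ⟨j, -, hj⟩ := Finset.exists_mem_notMem_of_card_lt_card h3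
      rw [Finset.mem_insert, Finset.mem_singleton, not_or] at hj
      exact ⟨j, hj.1, hj.2⟩
    obtain ⟨a, ha⟩ := Fin.exists_succAbove_eq hj.symm
    obtain ⟨b, hb⟩ := Fin.exists_succAbove_eq hjv.symm
    exact ⟨c j hj a b, fun k hk a' b' h1 h2 =>
      key k j hk hj a' b' a b (h1.trans ha.symm) (h2.trans hb.symm)⟩
  choose g hg using ex
  refine ⟨g, fun j hj a b => ?_⟩
  obtain ⟨i', hi'⟩ := Fin.exists_succAbove_eq hj.symm
  rw [← hg _ j hj i' a hi' rfl, ← hg _ j hj i' b hi' rfl, ← hc j hj i' a b, inv_mul_cancel_left]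

/-- the face of a simplex of `XX S` -/
theorem xx_δ {S : Type} {n : ℕ} (j : Fin (n + 2)) (x : El (Bg (op (SimplexCategory.mk (n + 1)))) S) :
    (XX S).δ j x = x.map (Bg.res (SimplexCategory.δ j).op) := rfl

theorem map_unit {B B' S : Type} (f : B → B') (x : El B S) :
    (x.map f).map (fun _ => ()) = x.map (fun _ => ()) := by
  rcases x with _ | _ | ⟨(_ | _ | _), s⟩ <;> rfl

/-- an element of the shape of `x`, with `x` not of the form `y` -/
theorem eq_of_shape {B S : Type} (x y : El B S) (h : x.map (fun _ => ()) = y.map (fun _ => ()))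
    (hx : ∀ l c s, x ≠ .ix (.y l c) s) : x = y := by
  rcases x with _ | _ | ⟨(_ | ⟨l, c⟩ | _), s⟩ <;> rcases y with _ | _ | ⟨(_ | _ | _), s'⟩ <;>
    first
    | rfl
    | exact absurd rfl (hx _ _ _)
    | (simp only [El.map, Sh.map, reduceCtorEq, El.ix.injEq, Sh.u.injEq, Sh.m.injEq,
        false_and] at h
       try (obtain ⟨h1, h2⟩ := h; subst h2; first | subst h1; rfl | (obtain ⟨rfl, rfl⟩ := h1; rfl)))

theorem shape_y {B S : Type} (y : El B S) (l : Bool) (s : S)
    (h : y.map (fun _ => ()) = .ix (.y l ()) s) : ∃ c, y = .ix (.y l c) s := by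
  rcases y with _ | _ | ⟨(_ | _ | _), s'⟩ <;>
    simp only [El.map, Sh.map, reduceCtorEq, El.ix.injEq, Sh.y.injEq, false_and, and_true] at h
  obtain ⟨rfl, rfl⟩ := h
  exact ⟨_, rfl⟩

/-- the filler of a horn, by simplices -/
theorem fill2 {S : Type} {n : ℕ} (i : Fin (n + 3))
    (x : ∀ j : Fin (n + 3), j ≠ i → El (Bg (op (SimplexCategory.mk (n + 1)))) S)
    (h : ∀ (j k : Fin (n + 3)) (hj : j ≠ i) (hk : k ≠ i) (hjk : j < k),
      (x j hj).map (Bg.res (SimplexCategory.δ (k.pred (Fin.ne_zero_of_lt hjk))).op) =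
        (x k hk).map (Bg.res (SimplexCategory.δ (j.castPred (Fin.ne_last_of_lt hjk))).op)) :
    ∃ y : El (Bg (op (SimplexCategory.mk (n + 2)))) S, ∀ j hj,
      y.map (Bg.res (SimplexCategory.δ j).op) = x j hj := by
  have hsh : ∀ j k hj hk, (x j hj).map (fun _ => ()) = (x k hk).map (fun _ => ()) := by
    intro j k hj hk
    rcases lt_trichotomy j k with hjk | rfl | hjk
    · rw [← map_unit (Bg.res _) (x j hj), h j k hj hk hjk, map_unit]
    · rfl
    · rw [← map_unit (Bg.res _) (x k hk), h k j hk hj hjk, map_unit]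
  obtain ⟨j₀, hj₀⟩ : ∃ j : Fin (n + 3), j ≠ i := by
    obtain ⟨j, hj⟩ := exists_ne i
    exact ⟨j, hj⟩
  by_cases hy : ∃ l c s, x j₀ hj₀ = .ix (.y l c) s
  · obtain ⟨l, c₀, s, hx⟩ := hy
    have h1 : ∀ j hj, ∃ c, x j hj = .ix (.y l c) s := by
      intro j hj
      apply shape_y
      rw [hsh j j₀ hj hj₀, hx]
      rfl
    choose c hc using h1
    have h2 : ∀ (j k : Fin (n + 3)) (hj : j ≠ i) (hk : k ≠ i) (hjk : j < k),
        Bg.res (SimplexCategory.δ (k.pred (Fin.ne_zero_of_lt hjk))).op (c j hj) =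
          Bg.res (SimplexCategory.δ (j.castPred (Fin.ne_last_of_lt hjk))).op (c k hk) := by
      intro j k hj hk hjk
      have h3 := h j k hj hk hjk
      rw [hc, hc] at h3
      simp only [El.map, Sh.map, El.ix.injEq, Sh.y.injEq, true_and, and_true] at h3
      exact h3
    obtain ⟨g, hg⟩ := fill i (fun j hj => (c j hj).1) (fun j hj => (c j hj).2)
      (fun j k hj hk hjk a b => congrFun (congrFun (congrArg Subtype.val (h2 j k hj hk hjk)) a) b)
    refine ⟨.ix (.y l ⟨fun v w => (g v)⁻¹ * g w, fun v w z => ?_⟩) s, fun j hj => ?_⟩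
    · rw [mul_assoc, mul_inv_cancel_left]
    · rw [hc]
      simp only [El.map, Sh.map, El.ix.injEq, Sh.y.injEq, true_and, and_true]
      apply Subtype.ext
      funext a b
      exact hg j hj a b
  · have hy' : ∀ l c s, x j₀ hj₀ ≠ .ix (.y l c) s := fun l c s hh => hy ⟨l, c, s, hh⟩
    refine ⟨(x j₀ hj₀).map (fun _ => Bg.one _), fun j hj => ?_⟩
    symm
    have h1 : (x j₀ hj₀).map (fun _ => ()) = (x j hj).map (fun _ => ()) := hsh _ _ _ _
    rw [← eq_of_shape _ _ h1 hy']
    generalize x j₀ hj₀ = x₀ at hy'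
    rcases x₀ with _ | _ | ⟨(_ | ⟨l, c⟩ | _), s⟩ <;> first | rfl | exact absurd rfl (hy' _ _ _)

theorem s_KAN : S_KAN := by
  intro S
  rw [SSet.KanComplex.iff]
  intro n i f hf
  obtain _ | n := n
  · obtain ⟨j₀, hj₀⟩ := exists_ne i
    refine ⟨yonedaEquiv.symm ((XX S).σ 0 (yonedaEquiv (f j₀ hj₀))), fun j hj => ?_⟩
    obtain rfl : j = j₀ := by
      clear f hf
      revert i j j₀
      decide
    apply yonedaEquiv.injective
    rw [stdSimplex.yonedaEquiv_δ_comp, Equiv.apply_symm_apply]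
    obtain rfl | rfl : j = 0 ∨ j = 1 := by
      clear hj hj₀ f hf
      revert j
      decide
    · exact SSet.δ_comp_σ_self_apply (0 : Fin 1) _
    · exact SSet.δ_comp_σ_succ_apply (0 : Fin 1) _
  · rw [SSet.horn.isCompatible_iff] at hf
    obtain ⟨y, hy⟩ := fill2 (S := S) i (fun j hj => yonedaEquiv (f j hj)) (by
      intro j k hj hk hjk
      have := congrArg yonedaEquiv (hf j k hj hk hjk)
      rw [stdSimplex.yonedaEquiv_δ_comp, stdSimplex.yonedaEquiv_δ_comp] at this
      exact this)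
    refine ⟨yonedaEquiv.symm (show (XX S).obj (op (SimplexCategory.mk (n + 1 + 1))) from y),
      fun j hj => ?_⟩
    apply yonedaEquiv.injective
    rw [stdSimplex.yonedaEquiv_δ_comp]
    exact (congrArg ((XX S).δ j) (Equiv.apply_symm_apply yonedaEquiv
      (show (XX S).obj (op (SimplexCategory.mk (n + 1 + 1))) from y))).trans (hy j hj)

end Pool.Agent.L7h15.PG
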